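import Mathlib

set_option autoImplicit false

namespace Pool.Agent.Results.MP_5207c4_ag.Disconnected

open Polynomial

/-- The monic polynomial `x ^ d + ∑ a j x ^ j`. -/
noncomputable def Q {d : ℕ} (a : Fin d → ℝ) : ℝ[X] := X ^ d + ∑ j, C (a j) * X ^ (j : ℕ)

/-- The `l`-th derivative of `Q a`. -/
noncomputable def D {d : ℕ} (a : Fin d → ℝ) (l : ℕ) : ℝ[X] := derivative^[l] (Q a)

/-- `R_{4,d}`: all coefficients are non-zero and no derivative of order `< d` (order `0`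
included) has a multiple real root. -/
def R4 (d : ℕ) : Set (Fin d → ℝ) :=
  {a | (∀ j, a j ≠ 0) ∧ ∀ l < d, ∀ x : ℝ, (D a l).IsRoot x → ¬ (derivative (D a l)).IsRoot x}

/-- `R_{4,d}(τ)`: the points of `R_{4,d}` whose `l`-th derivative has exactly `(τ l).1` positive
and `(τ l).2` negative roots, for every `l < d`. -/
def R (d : ℕ) (τ : Fin d → ℕ × ℕ) : Set (Fin d → ℝ) :=
  {a | a ∈ R4 d ∧ ∀ l : Fin d,
    {x : ℝ | 0 < x ∧ (D a l).IsRoot x}.encard = (τ l).1 ∧
    {x : ℝ | x < 0 ∧ (D a l).IsRoot x}.encard = (τ l).2}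

lemma e0 (a : Fin 3 → ℝ) (x : ℝ) :
    (D a 0).IsRoot x ↔ x ^ 3 + a 2 * x ^ 2 + a 1 * x + a 0 = 0 := by
  simp [D, Q, Fin.sum_univ_three]
  constructor <;> intro h <;> linarith

lemma e1 (a : Fin 3 → ℝ) (x : ℝ) :
    (D a 1).IsRoot x ↔ 3 * x ^ 2 + 2 * a 2 * x + a 1 = 0 := by
  simp [D, Q, Fin.sum_univ_three]
  constructor <;> intro h <;> linarith

lemma e2 (a : Fin 3 → ℝ) (x : ℝ) : (D a 2).IsRoot x ↔ 6 * x + 2 * a 2 = 0 := by
  simp [D, Q, Fin.sum_univ_three]
  constructor <;> intro h <;> linarith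

lemma e3 (a : Fin 3 → ℝ) (x : ℝ) : ¬ (D a 3).IsRoot x := by
  simp [D, Q, Fin.sum_univ_three]
  norm_num

lemma dD (a : Fin 3 → ℝ) (l : ℕ) : derivative (D a l) = D a (l + 1) := by
  rw [D, D, Function.iterate_succ_apply']

lemma mem (r c : ℝ) (hr : 0 < r) (hc : c ≠ 0)
    (h : ∀ x : ℝ, x ^ 3 + (-18) * x ^ 2 + 96 * x + c = 0 ↔ x = r) (h4 : r ≠ 4) (h8 : r ≠ 8) :
    ![c, 96, -18] ∈ R 3 ![(1, 0), (2, 0), (1, 0)] := by
  have h0 : ∀ x, (D ![c, 96, -18] 0).IsRoot x ↔ x = r := fun x => by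
    rw [e0]; exact h x
  have h1 : ∀ x, (D ![c, 96, -18] 1).IsRoot x ↔ x = 4 ∨ x = 8 := fun x => by
    rw [e1]
    change 3 * x ^ 2 + 2 * (-18) * x + 96 = 0 ↔ _
    constructor
    · intro e
      have : (x - 4) * (x - 8) = 0 := by linarith
      rcases mul_eq_zero.1 this with e | e
      · left; linarith
      · right; linarith
    · rintro (rfl | rfl) <;> norm_num
  have h2 : ∀ x, (D ![c, 96, -18] 2).IsRoot x ↔ x = 6 := fun x => by
    rw [e2]
    change 6 * x + 2 * (-18) = 0 ↔ _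
    constructor <;> intro e <;> linarith
  refine ⟨⟨?_, ?_⟩, ?_⟩
  · intro j
    fin_cases j <;> simp [hc]
  · intro l hl x hx
    rw [dD]
    interval_cases l
    · rw [h0] at hx
      rw [h1, hx]
      tauto
    · rw [h1] at hx
      rw [h2]
      rcases hx with rfl | rfl <;> norm_num
    · exact e3 _ x
  · intro l
    fin_cases l
    · constructor
      · rw [show {x : ℝ | 0 < x ∧ (D ![c, 96, -18] ((⟨0, by norm_num⟩ : Fin 3) : ℕ)).IsRoot x}
          = {r} by
          ext x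
          simp only [Set.mem_setOf_eq, h0, Set.mem_singleton_iff]
          exact ⟨fun e => e.2, fun e => ⟨e ▸ hr, e⟩⟩]
        simp
      · rw [show {x : ℝ | x < 0 ∧ (D ![c, 96, -18] ((⟨0, by norm_num⟩ : Fin 3) : ℕ)).IsRoot x}
          = ∅ by
          ext x
          simp only [Set.mem_setOf_eq, h0, Set.mem_empty_iff_false, iff_false]
          rintro ⟨e, rfl⟩
          linarith]
        simp
    · constructor
      · rw [show {x : ℝ | 0 < x ∧ (D ![c, 96, -18] ((⟨1, by norm_num⟩ : Fin 3) : ℕ)).IsRoot x}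
          = {4, 8} by
          ext x
          simp only [Set.mem_setOf_eq, h1, Set.mem_insert_iff, Set.mem_singleton_iff]
          exact ⟨fun e => e.2, fun e => ⟨by rcases e with rfl | rfl <;> norm_num, e⟩⟩]
        rw [Set.encard_pair (by norm_num)]
        simp
      · rw [show {x : ℝ | x < 0 ∧ (D ![c, 96, -18] ((⟨1, by norm_num⟩ : Fin 3) : ℕ)).IsRoot x}
          = ∅ by
          ext x
          simp only [Set.mem_setOf_eq, h1, Set.mem_empty_iff_false, iff_false]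
          rintro ⟨e, rfl | rfl⟩ <;> linarith]
        simp
    · constructor
      · rw [show {x : ℝ | 0 < x ∧ (D ![c, 96, -18] ((⟨2, by norm_num⟩ : Fin 3) : ℕ)).IsRoot x}
          = {6} by
          ext x
          simp only [Set.mem_setOf_eq, h2, Set.mem_singleton_iff]
          exact ⟨fun e => e.2, fun e => ⟨by rw [e]; norm_num, e⟩⟩]
        simp
      · rw [show {x : ℝ | x < 0 ∧ (D ![c, 96, -18] ((⟨2, by norm_num⟩ : Fin 3) : ℕ)).IsRoot x}
          = ∅ by
          ext x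
          simp only [Set.mem_setOf_eq, h2, Set.mem_empty_iff_false, iff_false]
          rintro ⟨e, rfl⟩
          linarith]
        simp

/-- the value of the cubic at its inflection point -/
noncomputable def g (a : Fin 3 → ℝ) : ℝ :=
  (-a 2 / 3) ^ 3 + a 2 * (-a 2 / 3) ^ 2 + a 1 * (-a 2 / 3) + a 0

lemma g_ne (a : Fin 3 → ℝ) (ha : a ∈ R 3 ![(1, 0), (2, 0), (1, 0)]) : g a ≠ 0 := by
  intro hg
  obtain ⟨⟨hn, hs⟩, hc⟩ := ha
  obtain ⟨p0, n0⟩ := hc 0
  obtain ⟨p1, -⟩ := hc 1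
  simp only [Matrix.cons_val_zero, Matrix.cons_val_one, Fin.val_zero, Fin.val_one, e0, e1,
    Nat.cast_one, Nat.cast_zero, Nat.cast_ofNat] at p0 n0 p1
  obtain ⟨y, hy0, hy⟩ : {x : ℝ | 0 < x ∧ 3 * x ^ 2 + 2 * a 2 * x + a 1 = 0}.Nonempty := by
    rw [← Set.encard_pos, p1]; norm_num
  have hy2 := hs 1 (by norm_num) y ((e1 a y).2 hy)
  rw [dD, e2] at hy2
  rw [Set.encard_eq_zero] at n0
  obtain ⟨r, hr⟩ := Set.encard_eq_one.1 p0
  have key : ∀ x : ℝ, x ^ 3 + a 2 * x ^ 2 + a 1 * x + a 0 = 0 → x = r := by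
    intro x hx
    rcases lt_trichotomy x 0 with h | h | h
    · exact ((Set.ext_iff.1 n0 x).1 ⟨h, hx⟩).elim
    · subst h
      exact absurd (by simpa using hx) (hn 0)
    · exact (Set.ext_iff.1 hr x).1 ⟨h, hx⟩
  have s3 : √3 ^ 2 = 3 := Real.sq_sqrt (by norm_num)
  have s0 : √3 ≠ 0 := by positivity
  have k1 := key (-a 2 / 3) hg
  have k2 := key (-a 2 / 3 + √3 * (y + a 2 / 3)) (by
    unfold g at hg
    linear_combination hg + (√3 * (y + a 2 / 3)) * hy + (√3 * (y + a 2 / 3) ^ 3) * s3)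
  have : √3 * (y + a 2 / 3) = 0 := by linarith
  rcases mul_eq_zero.1 this with h | h
  · exact s0 h
  · exact hy2 (by linarith)

theorem result : ∃ (d : ℕ) (τ : Fin d → ℕ × ℕ),
    (R d τ).Nonempty ∧ ¬ IsPreconnected (R d τ) := by
  have hA := mem 1 (-79) one_pos (by norm_num) (fun x => ⟨fun e => by
    have : (x - 1) * (x ^ 2 - 17 * x + 79) = 0 := by linarith
    rcases mul_eq_zero.1 this with h | h
    · linarith
    · nlinarith [sq_nonneg (2 * x - 17)], fun e => by rw [e]; norm_num⟩)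
    (by norm_num) (by norm_num)
  have hB := mem 11 (-209) (by norm_num) (by norm_num) (fun x => ⟨fun e => by
    have : (x - 11) * (x ^ 2 - 7 * x + 19) = 0 := by linarith
    rcases mul_eq_zero.1 this with h | h
    · linarith
    · nlinarith [sq_nonneg (2 * x - 7)], fun e => by rw [e]; norm_num⟩)
    (by norm_num) (by norm_num)
  refine ⟨3, ![(1, 0), (2, 0), (1, 0)], ⟨_, hA⟩, fun h => ?_⟩
  have hc : Continuous g := by unfold g; fun_prop
  obtain ⟨a, ha, e⟩ := h.intermediate_value hB hA hc.continuousOn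
    (show (0 : ℝ) ∈ Set.Icc _ _ from ⟨by
      change (-(-18) / 3 : ℝ) ^ 3 + (-18) * (-(-18) / 3) ^ 2 + 96 * (-(-18) / 3) + (-209) ≤ 0
      norm_num, by
      change (0 : ℝ) ≤ (-(-18) / 3 : ℝ) ^ 3 + (-18) * (-(-18) / 3) ^ 2 + 96 * (-(-18) / 3) + (-79)
      norm_num⟩)
  exact g_ne a ha e

end Pool.Agent.Results.MP_5207c4_ag.Disconnected
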